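import Pool.Agent.Helper6.CX.Goals

/-! Project CX, packet ROTG: the cycles of `σ gad`. -/

set_option autoImplicit false

namespace Pool.Agent.Helper29.CX

open Equiv Pool.Agent.Helper6.CX

theorem thm (hgad : Pool.Agent.Helper6.CX.S_GAD) : Pool.Agent.Helper6.CX.S_ROTG := by
  intro n b G p q hG hn hS
  obtain ⟨-, hp, hq, hr, -⟩ := hgad n b G p q hG hS
  obtain ⟨m, rfl⟩ : ∃ m, n = m + 1 := ⟨n - 1, by omega⟩
  obtain ⟨h1, h2⟩ := hS
  set X : Perm (Fin (m + 1)) := finRotate (m + 1) * gad p q with hX
  -- values of the rotation
  have hσ : ∀ r : Fin (m + 1), r.val < m → (finRotate (m + 1) r).val = r.val + 1 := by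
    intro r hr'
    rw [finRotate_apply]
    exact Fin.val_add_one_of_lt' (by omega)
  have hXp : ∀ k, (X (p k)).val = (q k).val + 1 := by
    intro k
    rw [hX, Perm.mul_apply, hp, hσ]
    have := h1 k; omega
  have hXq : ∀ k, (X (q k)).val = (p k).val + 1 := by
    intro k
    rw [hX, Perm.mul_apply, hq, hσ]
    have := h1 k; omega
  have hXr : ∀ r, (∀ i, r ≠ p i ∧ r ≠ q i) → r.val < m → (X r).val = r.val + 1 := by
    intro r h h'
    rw [hX, Perm.mul_apply, hr r h, hσ r h']
  -- positions of the pairs
  have hpos : ∀ i k, i ≠ k → (q i).val < (p k).val ∨ (q k).val < (p i).val := by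
    intro i k hik
    rcases lt_or_gt_of_ne hik with h | h
    · left; have := h2 i k h; omega
    · right; have := h2 k i h; omega
  -- steps inside a block
  have hin : ∀ k (r : Fin (m + 1)), (p k).val < r.val → r.val < (q k).val →
      (X r).val = r.val + 1 := by
    intro k r hr1 hr2
    refine hXr r (fun i => ?_) (by have := h1 k; omega)
    have hi := h1 i
    constructor
    · intro h
      by_cases hik : i = k
      · subst hik; rw [h] at hr1; omega
      · have hv : r.val = (p i).val := congrArg Fin.val h
        rcases hpos i k hik with h3 | h3 <;> omega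
    · intro h
      by_cases hik : i = k
      · subst hik; rw [h] at hr2; omega
      · have hv : r.val = (q i).val := congrArg Fin.val h
        rcases hpos i k hik with h3 | h3 <;> omega
  have hmaps : ∀ k, Set.MapsTo X {r : Fin (m + 1) | (p k).val < r.val ∧ r.val ≤ (q k).val}
      {r : Fin (m + 1) | (p k).val < r.val ∧ r.val ≤ (q k).val} := by
    intro k r hr'
    obtain ⟨hr1, hr2⟩ := hr'
    have hk := h1 k
    show (p k).val < (X r).val ∧ (X r).val ≤ (q k).val
    rcases Nat.lt_or_ge r.val (q k).val with h | h
    · rw [hin k r hr1 h]; omega
    · have : r = q k := Fin.ext (by omega)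
      rw [this, hXq]; omega
  have hbij : ∀ k, Set.BijOn X {r : Fin (m + 1) | (p k).val < r.val ∧ r.val ≤ (q k).val}
      {r : Fin (m + 1) | (p k).val < r.val ∧ r.val ≤ (q k).val} := fun k =>
    ((Set.toFinite _).injOn_iff_bijOn_of_mapsTo (hmaps k)).1 X.injective.injOn
  constructor
  · intro k
    refine ⟨hbij k, ?_⟩
    have hk := h1 k
    -- everything is in the cycle of `q k`
    have key : ∀ v : ℕ, ∀ r : Fin (m + 1), r.val = v → (p k).val < v → v ≤ (q k).val →
        X.SameCycle (q k) r := by
      intro v
      induction v with
      | zero => intro r _ h _; omega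
      | succ v ih =>
        intro r hrv h3 h4
        rcases Nat.lt_or_ge (p k).val v with h5 | h5
        · have h6 := ih ⟨v, by omega⟩ rfl h5 (by omega)
          have h7 : X ⟨v, by omega⟩ = r := by
            apply Fin.ext
            rw [hin k ⟨v, by omega⟩ h5 (by show v < (q k).val; omega), hrv]
          rw [← h7, Perm.sameCycle_apply_right]
          exact h6
        · have h7 : X (q k) = r := by
            apply Fin.ext
            rw [hXq, hrv]; omega
          rw [← h7, Perm.sameCycle_apply_right]
    intro x hx y hy
    exact (key x.val x rfl hx.1 hx.2).symm.trans (key y.val y rfl hy.1 hy.2)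
  · have hmapsM : Set.MapsTo X {r : Fin (m + 1) | ∀ i, ¬ ((p i).val < r.val ∧ r.val ≤ (q i).val)}
        {r : Fin (m + 1) | ∀ i, ¬ ((p i).val < r.val ∧ r.val ≤ (q i).val)} := by
      intro r hr' i hi
      obtain ⟨r', hr1, hr2⟩ := (hbij i).surjOn hi
      have : r' = r := X.injective hr2
      rw [this] at hr1
      exact hr' i hr1
    refine ⟨((Set.toFinite _).injOn_iff_bijOn_of_mapsTo hmapsM).1 X.injective.injOn, ?_⟩
    have key : ∀ v : ℕ, ∀ r : Fin (m + 1), r.val = v →
        (∀ i, ¬ ((p i).val < r.val ∧ r.val ≤ (q i).val)) → X.SameCycle 0 r := by
      intro v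
      induction v using Nat.strong_induction_on with
      | _ v ih =>
        intro r hrv hM
        rcases Nat.eq_zero_or_pos v with h0 | h0
        · have : r = 0 := Fin.ext (by rw [hrv, h0]; rfl)
          rw [this]
        · set r' : Fin (m + 1) := ⟨v - 1, by omega⟩ with hr'
          have hv' : r'.val = v - 1 := rfl
          by_cases hM' : ∀ i, ¬ ((p i).val < r'.val ∧ r'.val ≤ (q i).val)
          · have h6 := ih (v - 1) (by omega) r' rfl hM'
            have h7 : X r' = r := by
              apply Fin.ext
              rw [hXr r' (fun i => ⟨fun h => ?_, fun h => ?_⟩) (by omega), hrv]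
              · omega
              · have hi := h1 i
                have hv : r'.val = (p i).val := congrArg Fin.val h
                exact hM i (by omega)
              · have hi := h1 i
                have hv : r'.val = (q i).val := congrArg Fin.val h
                exact hM' i (by omega)
            rw [← h7, Perm.sameCycle_apply_right]
            exact h6
          · push Not at hM'
            obtain ⟨k, hk1, hk2⟩ := hM'
            have hk := h1 k
            have hqk : r'.val = (q k).val := by
              by_contra hne
              exact hM k (by omega)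
            have h6 := ih (p k).val (by omega) (p k) rfl (by
              intro i hi
              by_cases hik : i = k
              · subst hik; omega
              · have h8 := h1 i
                rcases hpos i k hik with h3 | h3 <;> omega)
            have h7 : X (p k) = r := by
              apply Fin.ext
              rw [hXp, hrv]; omega
            rw [← h7, Perm.sameCycle_apply_right]
            exact h6
    intro x hx y hy
    exact (key x.val x rfl hx).symm.trans (key y.val y rfl hy)

end Pool.Agent.Helper29.CX
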